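import Mathlib

/-!
# MP_b34cfe_co: modified Erdos-Ginzburg-Ziv constants

The proposed bound `s'_{nt}((Z/n)^d) ≤ (t + 2^d - 1) n - ℓ + 1` is false: with `t = 1` it fails for
every odd `n ≥ 3` and every `d ≥ 3`.
-/

set_option autoImplicit false

namespace Pool.Agent.Results.MP_b34cfe_co.OddModuli

/-- Every zero-sum sequence over `G` of length at least `L` has a zero-sum subsequence of length
exactly `m` (sequences are multisets). -/
def Forces (G : Type) [AddCommGroup G] (m L : ℕ) : Prop :=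
  ∀ S : Multiset G, S.sum = 0 → L ≤ Multiset.card S →
    ∃ T : Multiset G, T ≤ S ∧ Multiset.card T = m ∧ T.sum = 0

/-- The modified EGZ constant `s'_m(G)`: the least `L` as above. -/
noncomputable def modEGZ (G : Type) [AddCommGroup G] (m : ℕ) : ℕ :=
  sInf {L : ℕ | Forces G m L}

/-- The least integer `ℓ ≥ 2^d` which does not divide `n`. -/
noncomputable def ell (n d : ℕ) : ℕ := sInf {k : ℕ | 2 ^ d ≤ k ∧ ¬ k ∣ n}

/-! ### nine points -/

/-- nine integer points -/
def P : Fin 9 → Fin 3 → ℤ :=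
  ![![-1, 0, 0], ![0, 1, 0], ![0, -1, 0], ![0, 0, 1], ![0, 0, -1],
    ![1, 1, 1], ![1, 1, -1], ![1, -1, 1], ![1, -1, -1]]

theorem trich {n : ℕ} (hn : 0 < n) {x : ℤ} (h : (n : ℤ) ∣ x) (h1 : x ≤ n) (h2 : -(n : ℤ) ≤ x) :
    x = -(n : ℤ) ∨ x = 0 ∨ x = n := by
  obtain ⟨k, rfl⟩ := h
  have hn' : (0 : ℤ) < n := by exact_mod_cast hn
  have hk1 : k ≤ 1 := by
    by_contra hc
    have : 2 ≤ k := by omega
    nlinarith
  have hk2 : -1 ≤ k := by
    by_contra hc
    have : k ≤ -2 := by omega
    nlinarith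
  have : k = -1 ∨ k = 0 ∨ k = 1 := by omega
  rcases this with rfl | rfl | rfl
  · left; ring
  · right; left; ring
  · right; right; ring

theorem nine {n : ℕ} (hodd : Odd n) (w : Fin 9 → ℕ) (hs : ∑ i, w i = n)
    (hd : ∀ k : Fin 3, (n : ℤ) ∣ ∑ i, (w i : ℤ) * P i k) : ∃ i, w i = n := by
  have hn : 0 < n := hodd.pos
  obtain ⟨q, hq⟩ := hodd
  have h0 := hd 0
  have h1 := hd 1
  have h2 := hd 2
  simp only [Fin.sum_univ_succ, P] at hs h0 h1 h2
  simp at hs h0 h1 h2
  by_contra hc
  push Not at hc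
  have e0 := hc 0
  have e1 := hc 1
  have e2 := hc 2
  have e3 := hc 3
  have e4 := hc 4
  have e5 := hc 5
  have e6 := hc 6
  have e7 := hc 7
  have e8 := hc 8
  have t0 := trich hn h0 (by simp at *; omega) (by simp at *; omega)
  have t1 := trich hn h1 (by simp at *; omega) (by simp at *; omega)
  have t2 := trich hn h2 (by simp at *; omega) (by simp at *; omega)
  clear h0 h1 h2
  rcases t0 with t0 | t0 | t0 <;> rcases t1 with t1 | t1 | t1 <;> rcases t2 with t2 | t2 | t2 <;> omega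

/-! ### the sequence -/

/-- the multiplicities -/
def mu (n : ℕ) (i : Fin 9) : ℕ := if i = 0 then (2 * n - 4) % n else n - 1

/-- the points -/
def pt (n m : ℕ) (x : (Fin m → Fin 2) × Fin 9) : Fin (3 + m) → ZMod n :=
  Fin.append (fun k => ((P x.2 k : ℤ) : ZMod n))
    (fun j => (((n - 1) / 2 : ℕ) : ZMod n) + (((x.1 j : Fin 2) : ℕ) : ZMod n))

theorem pt_left (n m : ℕ) (x : (Fin m → Fin 2) × Fin 9) (k : Fin 3) :
    pt n m x (Fin.castAdd m k) = ((P x.2 k : ℤ) : ZMod n) := by
  simp [pt]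

theorem pt_right (n m : ℕ) (x : (Fin m → Fin 2) × Fin 9) (j : Fin m) :
    pt n m x (Fin.natAdd 3 j) =
      (((n - 1) / 2 : ℕ) : ZMod n) + (((x.1 j : Fin 2) : ℕ) : ZMod n) := by
  simp [pt]

theorem P_inj : ∀ i j : Fin 9, (∀ k, P i k = P j k) → i = j := by
  decide

theorem P_bd : ∀ (i : Fin 9) (k : Fin 3), -1 ≤ P i k ∧ P i k ≤ 1 := by
  decide

theorem pt_inj {n : ℕ} (hn : 3 ≤ n) (m : ℕ) : Function.Injective (pt n m) := by
  rintro ⟨s, i⟩ ⟨s', i'⟩ h
  have h1 : i = i' := by
    apply P_inj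
    intro k
    have := congrFun h (Fin.castAdd m k)
    rw [pt_left, pt_left, ZMod.intCast_eq_intCast_iff] at this
    have hdvd := this.dvd
    have hb1 := P_bd i k
    have hb2 := P_bd i' k
    have : (n : ℤ) ∣ P i' k - P i k := hdvd
    have := Int.eq_zero_of_abs_lt_dvd this (by
      have : |P i' k - P i k| ≤ 2 := by
        rw [abs_le]; constructor <;> simp at hb1 hb2 ⊢ <;> omega
      have hn' : (3 : ℤ) ≤ n := by exact_mod_cast hn
      omega)
    omega
  have h2 : s = s' := by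
    funext j
    have := congrFun h (Fin.natAdd 3 j)
    rw [pt_right, pt_right] at this
    have := add_left_cancel this
    rw [ZMod.natCast_eq_natCast_iff] at this
    have h3 : ((s j : Fin 2) : ℕ) % n = ((s' j : Fin 2) : ℕ) % n := this
    have a1 := (s j).isLt
    have a2 := (s' j).isLt
    rw [Nat.mod_eq_of_lt (by omega), Nat.mod_eq_of_lt (by omega)] at h3
    exact Fin.ext h3
  rw [h1, h2]

/-- the sequence -/
def seq (n m : ℕ) : Multiset (Fin (3 + m) → ZMod n) :=
  ∑ x : (Fin m → Fin 2) × Fin 9, Multiset.replicate (mu n x.2) (pt n m x)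

theorem mu_lt {n : ℕ} (hn : 3 ≤ n) (i : Fin 9) : mu n i < n := by
  unfold mu
  split_ifs
  · exact Nat.mod_lt _ (by omega)
  · omega

theorem sum_mu {n : ℕ} (hn : 3 ≤ n) (hodd : Odd n) : 8 * (n - 1) + 1 ≤ ∑ i, mu n i := by
  have h1 : ∑ i, mu n i = (2 * n - 4) % n + 8 * (n - 1) := by
    simp only [Fin.sum_univ_succ, mu]
    simp
    ring
  rw [h1]
  have h2 : 0 < (2 * n - 4) % n := by
    obtain ⟨q, hq⟩ := hodd
    rcases Nat.lt_or_ge n 4 with h | h
    · have : n = 3 := by omega
      subst this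
      decide
    · have : 2 * n - 4 = (n - 4) + n := by omega
      rw [this, Nat.add_mod_right, Nat.mod_eq_of_lt (by omega)]
      omega
  omega

theorem card_seq {n : ℕ} (m : ℕ) (hn : 3 ≤ n) (hodd : Odd n) :
    2 ^ m * (8 * (n - 1)) + 1 ≤ Multiset.card (seq n m) := by
  have h1 : Multiset.card (seq n m) = 2 ^ m * ∑ i, mu n i := by
    rw [seq, Multiset.card_sum, Fintype.sum_prod_type]
    simp
  rw [h1]
  have h2 := sum_mu hn hodd
  have h3 : 0 < 2 ^ m := by positivity
  nlinarith

theorem sum_mu_P {n : ℕ} (hn : 3 ≤ n) (hodd : Odd n) (k : Fin 3) :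
    (n : ℤ) ∣ ∑ i, (mu n i : ℤ) * P i k := by
  obtain ⟨q, hq⟩ := hodd
  have h0 : (n : ℤ) ∣ 4 * ((n - 1 : ℕ) : ℤ) - (((2 * n - 4) % n : ℕ) : ℤ) := by
    have e : ((2 * n - 4 : ℕ) : ℤ) = 2 * n - 4 := by omega
    have : (((2 * n - 4) % n : ℕ) : ℤ) = (2 * n - 4) - n * (((2 * n - 4) / n : ℕ) : ℤ) := by
      have := Nat.div_add_mod (2 * n - 4) n
      have h' : ((n * ((2 * n - 4) / n) + (2 * n - 4) % n : ℕ) : ℤ) = ((2 * n - 4 : ℕ) : ℤ) := by
        rw [this]
      push_cast at h'
      rw [e] at h'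
      push_cast
      linarith
    rw [this]
    have e2 : ((n - 1 : ℕ) : ℤ) = n - 1 := by omega
    rw [e2]
    exact ⟨2 + (((2 * n - 4) / n : ℕ) : ℤ), by ring⟩
  simp only [Fin.sum_univ_succ, P, mu]
  fin_cases k
  · simp
    convert h0 using 1
    push_cast
    ring
  · simp
  · simp

theorem sum_seq {n : ℕ} (m : ℕ) (hn : 3 ≤ n) (hodd : Odd n) : (seq n m).sum = 0 := by
  have h1 : (seq n m).sum = ∑ x : (Fin m → Fin 2) × Fin 9, mu n x.2 • pt n m x := by
    rw [seq, Multiset.sum_sum]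
    simp
  rw [h1, Fintype.sum_prod_type]
  funext c
  rw [Finset.sum_apply]
  simp only [Finset.sum_apply, Pi.smul_apply, Pi.zero_apply]
  refine Fin.addCases (fun k => ?_) (fun j => ?_) c
  · simp only [pt_left]
    apply Finset.sum_eq_zero
    intro s _
    have := (ZMod.intCast_zmod_eq_zero_iff_dvd _ n).2 (sum_mu_P hn hodd k)
    push_cast at this
    simpa [nsmul_eq_mul] using this
  · simp only [pt_right]
    rw [Finset.sum_comm]
    apply Finset.sum_eq_zero
    intro i _
    rw [← Finset.smul_sum]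
    have h2 : ∑ s : Fin m → Fin 2, ((((n - 1) / 2 : ℕ) : ZMod n) + (((s j : Fin 2) : ℕ) : ZMod n))
        = 0 := by
      apply Finset.sum_involution (fun s _ => Function.update s j (Fin.rev (s j)))
      · intro s _
        have h3 : ((s j : Fin 2) : ℕ) + ((Fin.rev (s j) : Fin 2) : ℕ) = 1 := by
          have := (s j).isLt
          rw [Fin.val_rev]
          omega
        have h4 : (n - 1) / 2 + (n - 1) / 2 + 1 = n := by
          obtain ⟨q, hq⟩ := hodd
          omega
        simp only [Function.update_self]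
        have h5 : (((n - 1) / 2 + (n - 1) / 2 + (((s j : Fin 2) : ℕ) +
            ((Fin.rev (s j) : Fin 2) : ℕ)) : ℕ) : ZMod n) = 0 := by
          rw [h3, h4, ZMod.natCast_self]
        push_cast at h5
        push_cast
        linear_combination h5
      · intro s _ _ h
        have := congrFun h j
        simp only [Function.update_self] at this
        have h3 := congrArg Fin.val this
        have h4 := (s j).isLt
        rw [Fin.val_rev] at h3
        omega
      · intro s _
        simp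
      · intro s _
        simp
    rw [h2, smul_zero]

theorem count_seq {n : ℕ} (m : ℕ) (hn : 3 ≤ n) (x : (Fin m → Fin 2) × Fin 9) :
    (seq n m).count (pt n m x) = mu n x.2 := by
  rw [seq, Multiset.count_sum']
  rw [Finset.sum_eq_single x]
  · simp
  · intro y _ hy
    rw [Multiset.count_replicate, if_neg]
    intro h
    exact hy (pt_inj hn m h)
  · simp

theorem mem_seq {n : ℕ} (m : ℕ) {v : Fin (3 + m) → ZMod n} (h : v ∈ seq n m) :
    ∃ x, pt n m x = v := by
  rw [seq, Multiset.mem_sum] at h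
  obtain ⟨x, -, hx⟩ := h
  exact ⟨x, (Multiset.eq_of_mem_replicate hx).symm⟩

theorem no_zero_sum {n : ℕ} (m : ℕ) (hn : 3 ≤ n) (hodd : Odd n)
    (T : Multiset (Fin (3 + m) → ZMod n)) (hT : T ≤ seq n m) (hc : Multiset.card T = n) :
    T.sum ≠ 0 := by
  classical
  intro hsum
  set w : (Fin m → Fin 2) × Fin 9 → ℕ := fun x => T.count (pt n m x) with hw
  have hwle : ∀ x, w x < n := by
    intro x
    have := (Multiset.le_iff_count.1 hT) (pt n m x)
    rw [count_seq m hn] at this
    exact lt_of_le_of_lt this (mu_lt hn _)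
  have hsub : T.toFinset ⊆ Finset.univ.image (pt n m) := by
    intro v hv
    rw [Multiset.mem_toFinset] at hv
    obtain ⟨x, hx⟩ := mem_seq m (Multiset.mem_of_le hT hv)
    exact Finset.mem_image.2 ⟨x, Finset.mem_univ _, hx⟩
  have hTs : T.sum = ∑ x, w x • pt n m x := by
    rw [Finset.sum_multiset_count_of_subset T _ hsub,
      Finset.sum_image (fun a _ b _ h => pt_inj hn m h)]
  have hTc : ∑ x, w x = n := by
    rw [← hc, ← Multiset.sum_count_eq_card (s := Finset.univ.image (pt n m)) (m := T)]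
    · rw [Finset.sum_image (fun a _ b _ h => pt_inj hn m h)]
    · intro a ha
      exact hsub (Multiset.mem_toFinset.2 ha)
  rw [hTs] at hsum
  have hl : ∀ k : Fin 3, (n : ℤ) ∣ ∑ x, (w x : ℤ) * P x.2 k := by
    intro k
    have := congrFun hsum (Fin.castAdd m k)
    rw [Finset.sum_apply] at this
    simp only [Pi.smul_apply, Pi.zero_apply, pt_left, nsmul_eq_mul] at this
    rw [← ZMod.intCast_zmod_eq_zero_iff_dvd]
    push_cast
    exact this
  have hr : ∀ j : Fin m, n ∣ ∑ x, w x * ((x.1 j : Fin 2) : ℕ) := by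
    intro j
    have := congrFun hsum (Fin.natAdd 3 j)
    rw [Finset.sum_apply] at this
    simp only [Pi.smul_apply, Pi.zero_apply, pt_right, nsmul_eq_mul, mul_add,
      Finset.sum_add_distrib, ← Finset.sum_mul] at this
    rw [← Nat.cast_sum, hTc, ZMod.natCast_self, zero_mul, zero_add] at this
    rw [← ZMod.natCast_eq_zero_iff]
    push_cast
    exact this
  obtain ⟨x0, hx0⟩ : ∃ x, 0 < w x := by
    by_contra hcon
    push Not at hcon
    have : ∑ x, w x = 0 := Finset.sum_eq_zero (fun x _ => Nat.le_zero.1 (hcon x))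
    omega
  have key : ∀ x, x.1 ≠ x0.1 → w x = 0 := by
    intro x hx
    by_contra hwx
    apply hx
    funext j
    have hle : ∀ y ∈ (Finset.univ : Finset ((Fin m → Fin 2) × Fin 9)),
        w y * ((y.1 j : Fin 2) : ℕ) ≤ w y := by
      intro y _
      have := (y.1 j).isLt
      have : ((y.1 j : Fin 2) : ℕ) ≤ 1 := by omega
      nlinarith
    have hA : ∑ y, w y * ((y.1 j : Fin 2) : ℕ) ≤ n := by
      rw [← hTc]
      exact Finset.sum_le_sum hle
    obtain ⟨c, hcc⟩ := hr j
    have hc01 : c = 0 ∨ c = 1 := by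
      by_contra h
      have : 2 ≤ c := by omega
      nlinarith
    rcases hc01 with rfl | rfl
    · rw [mul_zero] at hcc
      have h1 := Finset.sum_eq_zero_iff.1 hcc
      have h2 := h1 x (Finset.mem_univ _)
      have h3 := h1 x0 (Finset.mem_univ _)
      rcases Nat.mul_eq_zero.1 h2 with h | h
      · exact absurd h hwx
      · rcases Nat.mul_eq_zero.1 h3 with h' | h'
        · omega
        · exact Fin.ext (by omega)
    · rw [mul_one, ← hTc] at hcc
      have h1 := (Finset.sum_eq_sum_iff_of_le hle).1 hcc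
      have h2 := h1 x (Finset.mem_univ _)
      have h3 := h1 x0 (Finset.mem_univ _)
      have h4 : ((x.1 j : Fin 2) : ℕ) = 1 :=
        Nat.eq_of_mul_eq_mul_left (Nat.pos_of_ne_zero hwx) (by omega)
      have h5 : ((x0.1 j : Fin 2) : ℕ) = 1 :=
        Nat.eq_of_mul_eq_mul_left hx0 (by omega)
      exact Fin.ext (by omega)
  have hs9 : ∑ i, w (x0.1, i) = n := by
    rw [← hTc, Fintype.sum_prod_type, Finset.sum_eq_single x0.1]
    · intro s _ hs
      exact Finset.sum_eq_zero (fun i _ => key (s, i) hs)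
    · intro h
      exact absurd (Finset.mem_univ _) h
  have hd9 : ∀ k : Fin 3, (n : ℤ) ∣ ∑ i, (w (x0.1, i) : ℤ) * P i k := by
    intro k
    have := hl k
    rw [Fintype.sum_prod_type, Finset.sum_eq_single x0.1] at this
    · exact this
    · intro s _ hs
      exact Finset.sum_eq_zero (fun i _ => by rw [key (s, i) hs]; simp)
    · intro h
      exact absurd (Finset.mem_univ _) h
  obtain ⟨i, hi⟩ := nine hodd (fun i => w (x0.1, i)) hs9 hd9
  have := hwle (x0.1, i)
  omega

/-! ### pigeonhole: the set of `L` is not empty -/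

theorem forces_large {n d : ℕ} (hn : 3 ≤ n) :
    Forces (Fin d → ZMod n) n (n ^ d * (n - 1) + 1) := by
  classical
  have : NeZero n := ⟨by omega⟩
  intro S _ hS
  obtain ⟨a, ha⟩ : ∃ a, n ≤ S.count a := by
    by_contra hcon
    push Not at hcon
    have h1 : Multiset.card S = ∑ a ∈ Finset.univ, S.count a :=
      (Multiset.sum_count_eq_card (fun a _ => Finset.mem_univ a)).symm
    have h2 : ∑ a ∈ (Finset.univ : Finset (Fin d → ZMod n)), S.count a ≤
        ∑ a ∈ (Finset.univ : Finset (Fin d → ZMod n)), (n - 1) :=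
      Finset.sum_le_sum (fun a _ => by have := hcon a; omega)
    rw [Finset.sum_const, Finset.card_univ, Fintype.card_fun, ZMod.card, Fintype.card_fin,
      smul_eq_mul] at h2
    omega
  refine ⟨Multiset.replicate n a, Multiset.le_count_iff_replicate_le.1 ha,
    Multiset.card_replicate _ _, ?_⟩
  rw [Multiset.sum_replicate]
  funext j
  simp

theorem result : ∀ n d : ℕ, Odd n → 3 ≤ n → 3 ≤ d →
    (1 + 2 ^ d - 1 : ℤ) * n - ell n d + 1 < (modEGZ (Fin d → ZMod n) (n * 1) : ℤ) := by
  intro n d hodd hn hd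
  obtain ⟨m, rfl⟩ := Nat.exists_eq_add_of_le hd
  have hmem : Forces (Fin (3 + m) → ZMod n) (n * 1) (modEGZ (Fin (3 + m) → ZMod n) (n * 1)) := by
    apply Nat.sInf_mem (s := {L : ℕ | Forces (Fin (3 + m) → ZMod n) (n * 1) L})
    exact ⟨_, by rw [mul_one]; exact forces_large hn⟩
  have h1 : Multiset.card (seq n m) < modEGZ (Fin (3 + m) → ZMod n) (n * 1) := by
    by_contra hcon
    push Not at hcon
    obtain ⟨T, hT, hc, hs⟩ := hmem (seq n m) (sum_seq m hn hodd) hcon
    exact no_zero_sum m hn hodd T hT (by omega) hs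
  have h2 := card_seq m hn hodd
  have h3 : 2 ^ (3 + m) ≤ ell n (3 + m) := by
    have : ell n (3 + m) ∈ {k : ℕ | 2 ^ (3 + m) ≤ k ∧ ¬ k ∣ n} := by
      apply Nat.sInf_mem
      refine ⟨2 ^ (3 + m) + n, by omega, fun h => ?_⟩
      have := Nat.le_of_dvd (by omega) h
      have : 0 < 2 ^ (3 + m) := by positivity
      omega
    exact this.1
  have h4 : (2 : ℤ) ^ (3 + m) = 8 * 2 ^ m := by rw [pow_add]; norm_num
  have h5 : (8 * 2 ^ m : ℤ) ≤ ell n (3 + m) := by
    rw [← h4]
    exact_mod_cast h3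
  have h6 : (2 ^ m * (8 * ((n : ℤ) - 1)) + 1 : ℤ) ≤ Multiset.card (seq n m) := by
    have : ((n - 1 : ℕ) : ℤ) = (n : ℤ) - 1 := by omega
    rw [← this]
    exact_mod_cast h2
  have h7 : (Multiset.card (seq n m) : ℤ) + 1 ≤ modEGZ (Fin (3 + m) → ZMod n) (n * 1) := by
    exact_mod_cast h1
  rw [h4]
  nlinarith

end Pool.Agent.Results.MP_b34cfe_co.OddModuli
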